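import Pool.Agent.W_be22fd_h78.Stmts2

/-!
MP_be22fd_co, module G: logarithmic range of a 2413 pattern (linear bound, no integrals).
-/

namespace Pool.Agent.W_be22fd_h64

open Polynomial

noncomputable def Phi (s : ℝ) : ℝ := s / (1 + s)

noncomputable def dec (s : ℝ) : ℝ := Phi s - Phi (s / 100)

theorem Phi_nonneg {s : ℝ} (hs : 0 ≤ s) : 0 ≤ Phi s := by
  unfold Phi; positivity

theorem Phi_le_one {s : ℝ} (hs : 0 ≤ s) : Phi s ≤ 1 := by
  unfold Phi; rw [div_le_one (by linarith)]; linarith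

theorem dec_eq {s : ℝ} (hs : 0 ≤ s) : dec s = 99 * s / ((1 + s) * (100 + s)) := by
  unfold dec Phi
  have h1 : (1 + s) ≠ 0 := by positivity
  have h2 : (100 + s) ≠ 0 := by positivity
  have h3 : (1 + s / 100) ≠ 0 := by positivity
  field_simp
  ring

theorem dec_nonneg {s : ℝ} (hs : 0 ≤ s) : 0 ≤ dec s := by
  rw [dec_eq hs]; positivity

theorem small_of_dec {s : ℝ} (hs : 0 ≤ s) (h : dec s < 2 / 25) : s < 1 / 10 ∨ 10 < s := by
  by_contra hc
  push Not at hc
  obtain ⟨h1, h2⟩ := hc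
  rw [dec_eq hs, div_lt_iff₀ (by positivity)] at h
  nlinarith

theorem aux1 {s : ℝ} (hs : 0 ≤ s) (h1 : s < 1 / 10) :
    2 * s / (1 - s) ≤ 5 / 2 * (99 * s / ((1 + s) * (100 + s))) := by
  have hs1 : 0 < 1 - s := by linarith
  have e : 5 / 2 * (99 * s / ((1 + s) * (100 + s))) = (495 / 2 * s) / ((1 + s) * (100 + s)) := by
    ring
  rw [e, div_le_div_iff₀ hs1 (by positivity)]
  have : 2 * ((1 + s) * (100 + s)) ≤ 495 / 2 * (1 - s) := by nlinarith
  nlinarith

theorem aux2 {s : ℝ} (h1 : 10 < s) :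
    2 / (s - 1) ≤ 5 / 2 * (99 * s / ((1 + s) * (100 + s))) := by
  have hs1 : 0 < s - 1 := by linarith
  have e : 5 / 2 * (99 * s / ((1 + s) * (100 + s))) = (495 / 2 * s) / ((1 + s) * (100 + s)) := by
    ring
  rw [e, div_le_div_iff₀ hs1 (by positivity)]
  nlinarith

/-- the estimate for one root -/
theorem ratio (w : ℂ) (r : ℝ) (hr : 0 < r) (h : dec (‖w‖ / r) < 2 / 25) :
    0 < ‖(r : ℂ) - w‖ ∧ 0 < ‖(r : ℂ) + w‖ ∧
      |Real.log ‖(r : ℂ) - w‖ - Real.log ‖(r : ℂ) + w‖| ≤ 5 / 2 * dec (‖w‖ / r) := by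
  set s := ‖w‖ / r with hsdef
  have hs : 0 ≤ s := by positivity
  have hw : ‖w‖ = s * r := by rw [hsdef]; field_simp
  have hrn : ‖(r : ℂ)‖ = r := by simp [abs_of_pos hr]
  have u1 : ‖(r : ℂ) - w‖ ≤ (1 + s) * r := by
    have := norm_sub_le (r : ℂ) w
    rw [hrn, hw] at this; linarith
  have u2 : ‖(r : ℂ) + w‖ ≤ (1 + s) * r := by
    have := norm_add_le (r : ℂ) w
    rw [hrn, hw] at this; linarith
  have key : ∀ q : ℝ, 0 < q → q ≤ ‖(r : ℂ) - w‖ → q ≤ ‖(r : ℂ) + w‖ →
      (1 + s) * r / q - 1 ≤ 5 / 2 * dec s →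
      0 < ‖(r : ℂ) - w‖ ∧ 0 < ‖(r : ℂ) + w‖ ∧
      |Real.log ‖(r : ℂ) - w‖ - Real.log ‖(r : ℂ) + w‖| ≤ 5 / 2 * dec s := by
    intro q hq l1 l2 hh
    have p1 : 0 < ‖(r : ℂ) - w‖ := lt_of_lt_of_le hq l1
    have p2 : 0 < ‖(r : ℂ) + w‖ := lt_of_lt_of_le hq l2
    refine ⟨p1, p2, ?_⟩
    have e1 : Real.log ‖(r : ℂ) - w‖ ≤ Real.log ((1 + s) * r) := Real.log_le_log p1 u1
    have e2 : Real.log ‖(r : ℂ) + w‖ ≤ Real.log ((1 + s) * r) := Real.log_le_log p2 u2
    have e3 : Real.log q ≤ Real.log ‖(r : ℂ) - w‖ := Real.log_le_log hq l1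
    have e4 : Real.log q ≤ Real.log ‖(r : ℂ) + w‖ := Real.log_le_log hq l2
    have e5 : Real.log ((1 + s) * r) - Real.log q ≤ (1 + s) * r / q - 1 := by
      rw [← Real.log_div (by positivity) (by positivity)]
      exact Real.log_le_sub_one_of_pos (by positivity)
    rw [abs_le]
    constructor <;> linarith
  rcases small_of_dec hs h with h1 | h1
  · refine key ((1 - s) * r) (by nlinarith) ?_ ?_ ?_
    · have := norm_sub_norm_le (r : ℂ) w
      rw [hrn, hw] at this; linarith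
    · have := norm_sub_norm_le (r : ℂ) (-w)
      rw [norm_neg, hrn, hw, sub_neg_eq_add] at this; linarith
    · have hs1 : 0 < 1 - s := by linarith
      rw [dec_eq hs]
      have e : (1 + s) * r / ((1 - s) * r) - 1 = 2 * s / (1 - s) := by field_simp; ring
      rw [e]
      exact aux1 hs h1
  · refine key ((s - 1) * r) (by nlinarith) ?_ ?_ ?_
    · have := norm_sub_norm_le w (r : ℂ)
      rw [hrn, hw, norm_sub_rev] at this; linarith
    · have := norm_sub_norm_le w (-(r : ℂ))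
      rw [norm_neg, hrn, hw, sub_neg_eq_add, add_comm w] at this; linarith
    · have hs1 : 0 < s - 1 := by linarith
      rw [dec_eq hs]
      have e : (1 + s) * r / ((s - 1) * r) - 1 = 2 / (s - 1) := by field_simp; ring
      rw [e]
      exact aux2 h1

/-- the estimate for a multiset of roots -/
theorem ratio_multiset (R : Multiset ℂ) (c r : ℝ) (hr : 0 < r)
    (h : (R.map (fun z : ℂ => dec (‖z - (c : ℂ)‖ / r))).sum < 2 / 25) :
    0 < (R.map (fun z : ℂ => ‖((c + r : ℝ) : ℂ) - z‖)).prod ∧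
    0 < (R.map (fun z : ℂ => ‖((c - r : ℝ) : ℂ) - z‖)).prod ∧
    |Real.log (R.map (fun z : ℂ => ‖((c + r : ℝ) : ℂ) - z‖)).prod -
      Real.log (R.map (fun z : ℂ => ‖((c - r : ℝ) : ℂ) - z‖)).prod| ≤
      5 / 2 * (R.map (fun z : ℂ => dec (‖z - (c : ℂ)‖ / r))).sum := by
  induction R using Multiset.induction_on with
  | empty => simp
  | cons z R ih =>
    simp only [Multiset.map_cons, Multiset.sum_cons, Multiset.prod_cons] at h ⊢
    have hz : 0 ≤ dec (‖z - (c : ℂ)‖ / r) := dec_nonneg (by positivity)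
    have hR : 0 ≤ (R.map (fun z : ℂ => dec (‖z - (c : ℂ)‖ / r))).sum := by
      apply Multiset.sum_nonneg
      intro x hx
      rw [Multiset.mem_map] at hx
      obtain ⟨y, _, rfl⟩ := hx
      exact dec_nonneg (by positivity)
    obtain ⟨i1, i2, i3⟩ := ih (by linarith)
    obtain ⟨j1, j2, j3⟩ := ratio (z - (c : ℂ)) r hr (by linarith)
    have e1 : ‖((c + r : ℝ) : ℂ) - z‖ = ‖(r : ℂ) - (z - c)‖ := by
      congr 1; push_cast; ring
    have e2 : ‖((c - r : ℝ) : ℂ) - z‖ = ‖(r : ℂ) + (z - c)‖ := by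
      rw [← norm_neg]; congr 1; push_cast; ring
    rw [e1, e2]
    refine ⟨by positivity, by positivity, ?_⟩
    rw [Real.log_mul (ne_of_gt j1) (ne_of_gt i1), Real.log_mul (ne_of_gt j2) (ne_of_gt i2)]
    rw [abs_le] at i3 j3 ⊢
    constructor <;> linarith [i3.1, i3.2, j3.1, j3.2]

/-- complex roots of a real polynomial -/
noncomputable def rt (p : ℝ[X]) : Multiset ℂ := (p.map (algebraMap ℝ ℂ)).roots

theorem abs_eval (p : ℝ[X]) (x : ℝ) :
    |p.eval x| = |p.leadingCoeff| * ((rt p).map (fun z => ‖(x : ℂ) - z‖)).prod := by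
  have h1 := (IsAlgClosed.splits (p.map (algebraMap ℝ ℂ))).eval_eq_prod_roots (x : ℂ)
  have h2 : (p.map (algebraMap ℝ ℂ)).eval (x : ℂ) = ((p.eval x : ℝ) : ℂ) := by
    have := Polynomial.eval_map_algebraMap (B := ℂ) p (x : ℂ)
    rw [this]
    exact (Polynomial.aeval_algebraMap_apply ℂ x p).trans (by simp)
  rw [h2] at h1
  have h3 : ‖((p.eval x : ℝ) : ℂ)‖ = |p.eval x| := by simp
  rw [← h3, h1, norm_mul]
  congr 1
  · rw [Polynomial.leadingCoeff_map]; simp
  · unfold rt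
    generalize (Polynomial.map (algebraMap ℝ ℂ) p).roots = R
    induction R using Multiset.induction_on with
    | empty => simp
    | cons z R ih => simp [ih]

noncomputable def tot (p : ℝ[X]) (c r : ℝ) : ℝ :=
  ((rt p).map (fun z : ℂ => dec (‖z - (c : ℂ)‖ / r))).sum

theorem tot_nonneg (p : ℝ[X]) (c r : ℝ) (hr : 0 < r) : 0 ≤ tot p c r := by
  apply Multiset.sum_nonneg
  intro x hx
  rw [Multiset.mem_map] at hx
  obtain ⟨y, _, rfl⟩ := hx
  exact dec_nonneg (by positivity)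

theorem poly_ratio (p : ℝ[X]) (c r : ℝ) (hr : 0 < r) (h : tot p c r < 2 / 25) :
    |p.eval (c + r)| ≤ 5 / 4 * |p.eval (c - r)| ∧ |p.eval (c - r)| ≤ 5 / 4 * |p.eval (c + r)| := by
  obtain ⟨h1, h2, h3⟩ := ratio_multiset (rt p) c r hr h
  have hexp : Real.exp (1 / 5) ≤ 5 / 4 := by
    have := Real.add_one_le_exp (-(1 / 5) : ℝ)
    rw [Real.exp_neg] at this
    have hp : 0 < Real.exp (1 / 5) := Real.exp_pos _
    have h4 : (4 / 5 : ℝ) ≤ (Real.exp (1 / 5))⁻¹ := by linarith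
    rw [le_inv_comm₀ (by norm_num) hp] at h4
    norm_num at h4 ⊢
    exact h4
  have h4 : 5 / 2 * tot p c r ≤ 1 / 5 := by linarith
  have h5 := le_trans h3 h4
  rw [abs_le] at h5
  have k : ∀ a b : ℝ, 0 < a → 0 < b → Real.log a - Real.log b ≤ 1 / 5 → a ≤ 5 / 4 * b := by
    intro a b ha hb hab
    have : Real.log a ≤ Real.log (Real.exp (1 / 5) * b) := by
      rw [Real.log_mul (Real.exp_pos _).ne' hb.ne', Real.log_exp]; linarith
    have := (Real.log_le_log_iff ha (by positivity)).1 this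
    nlinarith
  rw [abs_eval, abs_eval]
  have hl : 0 ≤ |p.leadingCoeff| := abs_nonneg _
  have k1 := k _ _ h1 h2 h5.2
  have k2 := k _ _ h2 h1 (by linarith [h5.1])
  constructor
  · calc _ ≤ |p.leadingCoeff| * (5 / 4 * _) := mul_le_mul_of_nonneg_left k1 hl
      _ = _ := by ring
  · calc _ ≤ |p.leadingCoeff| * (5 / 4 * _) := mul_le_mul_of_nonneg_left k2 hl
      _ = _ := by ring

theorem sum_tot (p : ℝ[X]) (c r₁ : ℝ) (hr : 0 < r₁) (m : ℕ) (D : ℕ) (hD : p.natDegree ≤ D) :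
    ∑ k ∈ Finset.range m, tot p c (r₁ * 100 ^ k) ≤ D := by
  have hcard : (rt p).card ≤ D := by
    unfold rt
    refine le_trans (Polynomial.card_roots' _) ?_
    exact le_trans Polynomial.natDegree_map_le hD
  have h1 : ∀ R : Multiset ℂ, ∑ k ∈ Finset.range m,
      (R.map (fun z : ℂ => dec (‖z - (c : ℂ)‖ / (r₁ * 100 ^ k)))).sum ≤ R.card := by
    intro R
    induction R using Multiset.induction_on with
    | empty => simp
    | cons z R ih =>
      simp only [Multiset.map_cons, Multiset.sum_cons, Multiset.card_cons, Nat.cast_add,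
        Nat.cast_one, Finset.sum_add_distrib]
      have : ∑ k ∈ Finset.range m, dec (‖z - (c : ℂ)‖ / (r₁ * 100 ^ k)) ≤ 1 := by
        have e : ∀ k ∈ Finset.range m, dec (‖z - (c : ℂ)‖ / (r₁ * 100 ^ k)) =
            Phi (‖z - (c : ℂ)‖ / (r₁ * 100 ^ k)) - Phi (‖z - (c : ℂ)‖ / (r₁ * 100 ^ (k + 1))) := by
          intro k _
          unfold dec
          congr 2
          rw [div_div, pow_succ, mul_assoc]
        rw [Finset.sum_congr rfl e, Finset.sum_range_sub']
        have a1 : Phi (‖z - (c : ℂ)‖ / (r₁ * 100 ^ 0)) ≤ 1 := Phi_le_one (by positivity)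
        have a2 : 0 ≤ Phi (‖z - (c : ℂ)‖ / (r₁ * 100 ^ m)) := Phi_nonneg (by positivity)
        linarith
      linarith
  have h2 := h1 (rt p)
  have h3 : ((rt p).card : ℝ) ≤ D := by exact_mod_cast hcard
  unfold tot
  linarith

theorem G_range : Pool.Agent.W_be22fd_h78.G_range := by
  intro D g c r₁ r₂ hr₁ hr₁₂ hdeg hord
  have hr₂ : 0 < r₂ := lt_of_lt_of_le hr₁ hr₁₂
  -- number of scales
  have h100 : Real.log 100 ≤ 5 := by
    rw [Real.log_le_iff_le_exp (by norm_num)]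
    have h1 : (2.7 : ℝ) < Real.exp 1 := by
      have := Real.exp_one_gt_d9; linarith
    calc (100 : ℝ) ≤ 2.7 ^ 5 := by norm_num
      _ ≤ (Real.exp 1) ^ 5 := by gcongr
      _ = Real.exp 5 := by rw [← Real.exp_nat_mul]; norm_num
  have h100' : 0 < Real.log 100 := Real.log_pos (by norm_num)
  set m : ℕ := ⌊Real.log (r₂ / r₁) / Real.log 100⌋₊ with hm
  have hL : 0 ≤ Real.log (r₂ / r₁) := Real.log_nonneg (by rw [le_div_iff₀ hr₁]; linarith)
  have hm1 : (m : ℝ) * Real.log 100 ≤ Real.log (r₂ / r₁) := by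
    have := Nat.floor_le (div_nonneg hL h100'.le)
    rw [← hm, le_div_iff₀ h100'] at this
    exact this
  have hm2 : Real.log (r₂ / r₁) ≤ (m + 1) * Real.log 100 := by
    have := (Nat.lt_floor_add_one (Real.log (r₂ / r₁) / Real.log 100)).le
    rw [← hm, div_le_iff₀ h100'] at this
    exact this
  -- the three differences
  set a := g 3 - g 2 with ha
  set b := g 1 - g 0 with hb
  set e := g 3 - g 0 with he
  have degs : ∀ i j, (g i - g j).natDegree ≤ D := fun i j =>
    le_trans (Polynomial.natDegree_sub_le _ _) (max_le (hdeg i) (hdeg j))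
  have hk : ∀ k ∈ Finset.range (m + 1), (2 / 25 : ℝ) ≤
      tot a c (r₁ * 100 ^ k) + tot b c (r₁ * 100 ^ k) + tot e c (r₁ * 100 ^ k) := by
    intro k hk
    rw [Finset.mem_range] at hk
    have hkm : k ≤ m := by omega
    by_contra hlt
    push Not at hlt
    set r := r₁ * 100 ^ k with hr
    have hrpos : 0 < r := by positivity
    have hr1 : r₁ ≤ r := by
      have : (1 : ℝ) ≤ 100 ^ k := one_le_pow₀ (by norm_num)
      nlinarith
    have hr2 : r ≤ r₂ := by
      have h1 : Real.log ((100 : ℝ) ^ k) ≤ Real.log (r₂ / r₁) := by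
        rw [Real.log_pow]
        have : (k : ℝ) ≤ m := by exact_mod_cast hkm
        nlinarith
      have h2 := (Real.log_le_log_iff (by positivity) (by positivity)).1 h1
      rw [le_div_iff₀ hr₁] at h2
      linarith
    obtain ⟨⟨l1, l2, l3⟩, q1, q2, q3⟩ := hord r hr1 hr2
    have na := tot_nonneg a c r hrpos
    have nb := tot_nonneg b c r hrpos
    have ne := tot_nonneg e c r hrpos
    obtain ⟨pa, -⟩ := poly_ratio a c r hrpos (by linarith)
    obtain ⟨pb, -⟩ := poly_ratio b c r hrpos (by linarith)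
    obtain ⟨-, pe⟩ := poly_ratio e c r hrpos (by linarith)
    simp only [ha, hb, he, Polynomial.eval_sub] at pa pb pe
    rw [abs_of_neg (by linarith : (g 3).eval (c + r) - (g 2).eval (c + r) < 0),
      abs_of_pos (by linarith : 0 < (g 3).eval (c - r) - (g 2).eval (c - r))] at pa
    rw [abs_of_neg (by linarith : (g 1).eval (c + r) - (g 0).eval (c + r) < 0),
      abs_of_pos (by linarith : 0 < (g 1).eval (c - r) - (g 0).eval (c - r))] at pb
    rw [abs_of_pos (by linarith : 0 < (g 3).eval (c - r) - (g 0).eval (c - r)),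
      abs_of_neg (by linarith : (g 3).eval (c + r) - (g 0).eval (c + r) < 0)] at pe
    linarith
  have hsum := Finset.sum_le_sum hk
  rw [Finset.sum_const, Finset.card_range, Finset.sum_add_distrib, Finset.sum_add_distrib,
    nsmul_eq_mul] at hsum
  have s1 := sum_tot a c r₁ hr₁ (m + 1) D (degs 3 2)
  have s2 := sum_tot b c r₁ hr₁ (m + 1) D (degs 1 0)
  have s3 := sum_tot e c r₁ hr₁ (m + 1) D (degs 3 0)
  push_cast at hsum
  have hm3 : ((m : ℝ) + 1) ≤ 75 / 2 * D := by linarith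
  have hD0 : (0 : ℝ) ≤ D := Nat.cast_nonneg D
  nlinarith

end Pool.Agent.W_be22fd_h64
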